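import Pool.Agent.Helper84.SPN.Conv

/-!
# Mixing length of groups whose nonabelian composition factors are in the list of the known simple groups
-/

set_option autoImplicit false

namespace Pool.Agent.Results.MP_a2f62e_al.CompositionFactors

open Pool.Agent.Helper75.MX Pool.Agent.Helper84.SPN.Cl

/-- There are constants `C(M)`, `C(0) = 6`, such that for every `M` and every finite mixable group `G` the following holds. If
every noncommutative simple section `H/N` of `G`, `H` subnormal in `G`, `N` normal in `H` (that is, every nonabelian composition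
factor), is in the class `Fam M`, then `mixlen G ≤ C(M) log₂ |G|`. -/
theorem result : ∃ C : ℕ → ℝ, C 0 = 6 ∧ ∀ (M : ℕ) (G : Type) [Group G] [Finite G],
    (∀ H : Subgroup G, H.IsSubnormal → ∀ (N : Subgroup H) [N.Normal],
      IsSimpleGroup (H ⧸ N) → NonComm (H ⧸ N) → Fam M (H ⧸ N)) →
    Mixable G → (mixlen G : ℝ) ≤ C M * Real.logb 2 (Nat.card G) :=
  Pool.Agent.Helper84.SPN.final_cl

end Pool.Agent.Results.MP_a2f62e_al.CompositionFactors
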