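import Pool.Agent.Helper84.MXQ.Char

/-!
# Which finite groups are mixable
-/

set_option autoImplicit false

namespace Pool.Agent.Results.MP_a2f62e_al.MixableGroups

open Pool.Agent.Helper75.MX

/-- A finite group is mixable if and only if it has no nontrivial quotient of odd order. -/
theorem result (G : Type) [Group G] [Finite G] :
    Mixable G ↔ ∀ N : Subgroup G, N.Normal → Odd N.index → N = ⊤ :=
  Pool.Agent.Helper84.MXQ.mixable_iff G

end Pool.Agent.Results.MP_a2f62e_al.MixableGroups
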