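import Pool.Agent.Helper70.ML.All

/-!
# Mixing length: reduction to quasisimple groups with centre of odd order
-/

set_option autoImplicit false

namespace Pool.Agent.Results.MP_a2f62e_al.QuasisimpleReduction

open Pool.Agent.Helper75.MX

/-- Let `C ≥ 6` and `G` a finite group without nontrivial quotient of odd order. Suppose that every section `Q = H/N` of `G`,
`H` subnormal in `G` and `N` normal in `H`, which is perfect, has a centre `Z(Q)` of odd order and a simple quotient
`Q/Z(Q)` that is not isomorphic to an alternating group `A_n`, `n ≥ 5`, is mixable with `mixlen Q ≤ C log₂ |Q|`. Then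
`G` is mixable and `mixlen G ≤ C log₂ |G|`. -/
theorem result (C : ℝ) (hC : 6 ≤ C) (G : Type) [Group G] [Finite G]
    (hQ : ∀ H : Subgroup G, H.IsSubnormal → ∀ (N : Subgroup H) [N.Normal],
      commutator (H ⧸ N) = ⊤ → IsSimpleGroup ((H ⧸ N) ⧸ Subgroup.center (H ⧸ N)) →
      Odd (Nat.card (Subgroup.center (H ⧸ N))) →
      (¬ ∃ n : ℕ, 5 ≤ n ∧
        Nonempty (((H ⧸ N) ⧸ Subgroup.center (H ⧸ N)) ≃* alternatingGroup (Fin n))) →
      Mixable (H ⧸ N) ∧ (mixlen (H ⧸ N) : ℝ) ≤ C * Real.logb 2 (Nat.card (H ⧸ N)))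
    (hG : ∀ N : Subgroup G, N.Normal → Odd N.index → N = ⊤) :
    Mixable G ∧ (mixlen G : ℝ) ≤ C * Real.logb 2 (Nat.card G) := by
  obtain ⟨h1, h2⟩ := Pool.Agent.Helper70.ML.pFIN C hC G hQ
  exact ⟨h1.2 hG, h2 (h1.2 hG)⟩

end Pool.Agent.Results.MP_a2f62e_al.QuasisimpleReduction
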