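import Pool.Agent.Helper75.MX.Final

/-!
MP_a2f62e_al: mixing length of finite solvable groups.
-/

set_option autoImplicit false

namespace Pool.Agent.Results.MP_a2f62e_al.SolvableMixLength

open Pool.Agent.Helper75.MX

/-- The mixing length of a finite solvable mixable group of order `2 ^ a * m`, `m` odd, is at most
`a + 6 log_2 m`, which is at most `6 log_2 |G|`. -/
theorem result : ∀ (G : Type) [Group G] [Finite G], Group.IsSolvable G → Mixable G →
    ∀ a m : ℕ, Nat.card G = 2 ^ a * m → Odd m →
      (mixlen G : ℝ) ≤ a + 6 * Real.logb 2 m ∧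
        (a : ℝ) + 6 * Real.logb 2 m ≤ 6 * Real.logb 2 (Nat.card G) := by
  intro G _ _ hsol
  exact (solvable_bound G hsol).2

end Pool.Agent.Results.MP_a2f62e_al.SolvableMixLength
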